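import Pool.Agent.H24.GC.SY

/-!
# GC modules E5 and E4: exact inequalities, radius four
-/

set_option autoImplicit false
set_option linter.unusedSimpArgs false

open Finset Pool.Agent.H23.GC

namespace Pool.Agent.H24.GC

/-! ## Explicit bijections (before opening classical instances) -/

def f1 : Fin 5 ⊕ Fin 5 → Fin 10 := Sum.elim ![0, 1, 4, 5, 6] ![2, 3, 7, 8, 9]
def f2 : Fin 5 ⊕ Fin 5 → Fin 10 := Sum.elim ![0, 1, 6, 7, 8] ![2, 3, 4, 5, 9]
def f3 : Fin 5 ⊕ Fin 5 → Fin 10 := Sum.elim ![3, 4, 5, 6, 7] ![0, 1, 2, 8, 9]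
def f4 : Fin 5 ⊕ Fin 5 → Fin 10 := Sum.elim ![0, 1, 2, 7, 8] ![3, 4, 5, 6, 9]
def f5 : Fin 5 ⊕ Fin 5 → Fin 10 := Sum.elim ![5, 6, 7, 8, 9] ![0, 1, 2, 3, 4]
def f6 : Fin 4 ⊕ Fin 5 → Fin 9 := Sum.elim ![0, 1, 4, 5] ![2, 3, 6, 7, 8]
def f7 : Fin 4 ⊕ Fin 5 → Fin 9 := Sum.elim ![0, 1, 6, 7] ![2, 3, 4, 5, 8]
def f8 : Fin 4 ⊕ Fin 5 → Fin 9 := Sum.elim ![0, 1, 2, 3] ![4, 5, 6, 7, 8]

theorem f1_bij : Function.Bijective f1 := by decide
theorem f2_bij : Function.Bijective f2 := by decide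
theorem f3_bij : Function.Bijective f3 := by decide
theorem f4_bij : Function.Bijective f4 := by decide
theorem f5_bij : Function.Bijective f5 := by decide
theorem f6_bij : Function.Bijective f6 := by decide
theorem f7_bij : Function.Bijective f7 := by decide
theorem f8_bij : Function.Bijective f8 := by decide

open scoped Classical Nat

noncomputable section

variable {ι : Type} [Fintype ι]

/-- number of words with a property -/
def cw (κ : Type) [Fintype κ] (P : (κ → ι × Bool) → Prop) : ℕ := #{w : κ → ι × Bool | P w}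

theorem cw_eq {κ : Type} [Fintype κ] (P : (κ → ι × Bool) → Prop)
    (i1 : Fintype (κ → ι × Bool)) (i2 : DecidablePred P) :
    #(@Finset.filter _ P i2 (@Finset.univ _ i1)) = cw κ P := by
  unfold cw
  refine congrArg Finset.card ?_
  ext w
  simp only [Finset.mem_filter, Finset.mem_univ, true_and]

/-- decomposition with an explicit placement of the blocks -/
theorem patt (hSY : T_SY) {G : Type} [AddCommGroup G] (ev : (ι → ℤ) →+ G) {a b c : ℕ}
    (f : Fin a ⊕ Fin b → Fin c) (hf : Function.Bijective f)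
    (P : (Fin c → ι × Bool) → Prop) (P₁ : (Fin a → ι × Bool) → Prop)
    (P₂ : (Fin b → ι × Bool) → Prop)
    (h : ∀ z : Fin c → ι × Bool, P z ↔ P₁ (z ∘ f ∘ Sum.inl) ∧ P₂ (z ∘ f ∘ Sum.inr))
    (i : DecidablePred P) :
    #(@Finset.filter _ P i (Zr ev (Fin c))) =
      ∑ q ∈ Vn ι a ×ˢ Vn ι b with ev q.1 = ev q.2 ∧ nrm (q.1 - q.2) = a + b,
        cw (Fin a) (fun w => vs w = q.1 ∧ P₁ w) * cw (Fin b) (fun u => vs u = -q.2 ∧ P₂ u) := by
  have h1 := (hSY ι G ev).1 (Fin a ⊕ Fin b) (Fin c) (Equiv.ofBijective f hf) P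
  have h2 := (hSY ι G ev).2 (Fin a) (Fin b) P₁ P₂
  simp only [Fintype.card_fin, cw_eq] at h2
  rw [← h2]
  have h3 : #(@Finset.filter _ P i (Zr ev (Fin c))) =
      #(@Finset.filter _ P (fun _ => Classical.propDecidable _) (Zr ev (Fin c))) := by
    rw [Subsingleton.elim i (fun _ => Classical.propDecidable _)]
  rw [h3, ← h1]
  clear h3 i
  congr 1
  refine filter_congr fun z _ => ?_
  rw [h]
  have e1 : (z ∘ (Equiv.ofBijective f hf).symm) ∘ f ∘ Sum.inl = z ∘ Sum.inl := by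
    funext k
    simp only [Function.comp_apply]
    congr 1
    exact (Equiv.ofBijective f hf).symm_apply_apply _
  have e2 : (z ∘ (Equiv.ofBijective f hf).symm) ∘ f ∘ Sum.inr = z ∘ Sum.inr := by
    funext k
    simp only [Function.comp_apply]
    congr 1
    exact (Equiv.ofBijective f hf).symm_apply_apply _
  rw [e1, e2]

/-- indicator -/
def ind (A : (ι → ℤ) → Prop) (c : ι → ℤ) : ℕ := if A c then 1 else 0

theorem P5_eq (hL : T_L) (hV : T_V) {G : Type} [AddCommGroup G] (ev : (ι → ℤ) →+ G)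
    (hP : PC 4 ev) (A B : (ι → ℤ) → Prop) :
    P5 ev A B = ∑ q ∈ Vn ι 5 ×ˢ Vn ι 5 with ev q.1 = ev q.2 ∧ nrm (q.1 - q.2) = 5 + 5,
      ind A q.1 * ind B q.2 := by
  have hv : ∀ n (c : ι → ℤ), c ∈ Vn ι n ↔ nrm c = n := fun n c => hV ι n c
  unfold P5
  rw [card_filter, sum_filter]
  refine sum_congr rfl fun q hq => ?_
  simp only [mem_product, hv] at hq
  have h1 : (ev q.1 = ev q.2 ∧ nrm (q.1 - q.2) = 5 + 5) ↔ (ev q.1 = ev q.2 ∧ q.1 ≠ q.2) := by
    constructor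
    · rintro ⟨h1, h2⟩
      refine ⟨h1, fun h => ?_⟩
      rw [h, sub_self] at h2
      simp [nrm] at h2
    · rintro ⟨h1, h2⟩
      obtain ⟨h3, h4, h5⟩ := (hL ι G 4 ev hP).2 q.1 q.2 h2 h1
      refine ⟨h1, ?_⟩
      rw [hq.1, hq.2] at h4 h5
      rcases h5 with ⟨r, hr⟩
      omega
  simp only [h1, ind]
  by_cases e1 : ev q.1 = ev q.2 <;> by_cases e2 : q.1 = q.2 <;> by_cases e3 : A q.1 <;>
    by_cases e4 : B q.2 <;> simp_all

theorem P4_eq (hL : T_L) (hV : T_V) {G : Type} [AddCommGroup G] (ev : (ι → ℤ) →+ G)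
    (hP : PC 4 ev) (A B : (ι → ℤ) → Prop) :
    P4 ev A B = ∑ q ∈ Vn ι 4 ×ˢ Vn ι 5 with ev q.1 = ev q.2 ∧ nrm (q.1 - q.2) = 4 + 5,
      ind A q.1 * ind B q.2 := by
  have hv : ∀ n (c : ι → ℤ), c ∈ Vn ι n ↔ nrm c = n := fun n c => hV ι n c
  unfold P4
  rw [card_filter, sum_filter]
  refine sum_congr rfl fun q hq => ?_
  simp only [mem_product, hv] at hq
  have h1 : (ev q.1 = ev q.2 ∧ nrm (q.1 - q.2) = 4 + 5) ↔ (ev q.1 = ev q.2) := by
    constructor
    · rintro ⟨h1, h2⟩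
      exact h1
    · intro h1
      have h2 : q.1 ≠ q.2 := by
        intro h
        rw [h] at hq
        omega
      obtain ⟨h3, h4, -⟩ := (hL ι G 4 ev hP).2 q.1 q.2 h2 h1
      refine ⟨h1, ?_⟩
      rw [hq.1, hq.2] at h4
      omega
  simp only [h1, ind]
  by_cases e1 : ev q.1 = ev q.2 <;> by_cases e3 : A q.1 <;>
    by_cases e4 : B q.2 <;> simp_all

theorem P5_swap {G : Type} [AddCommGroup G] (ev : (ι → ℤ) →+ G) (A B : (ι → ℤ) → Prop) :
    P5 ev A B = P5 ev B A := by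
  unfold P5
  refine card_nbij' Prod.swap Prod.swap ?_ ?_ (fun _ _ => rfl) (fun _ _ => rfl)
  · intro q hq
    simp only [coe_filter, mem_product, Set.mem_ofPred_eq, Prod.fst_swap, Prod.snd_swap] at hq ⊢
    exact ⟨⟨hq.1.2, hq.1.1⟩, hq.2.1.symm, fun h => hq.2.2.1 h.symm, hq.2.2.2.2, hq.2.2.2.1⟩
  · intro q hq
    simp only [coe_filter, mem_product, Set.mem_ofPred_eq, Prod.fst_swap, Prod.snd_swap] at hq ⊢
    exact ⟨⟨hq.1.2, hq.1.1⟩, hq.2.1.symm, fun h => hq.2.2.1 h.symm, hq.2.2.2.2, hq.2.2.2.1⟩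

theorem ell_neg (c : ι → ℤ) : ell (-c) = ell c := by
  unfold ell
  simp

theorem ind_t1_neg (c : ι → ℤ) : ind t1 (-c) = ind t1 c := by simp [ind, t1, ell_neg]
theorem ind_t22_neg (c : ι → ℤ) : ind t22 (-c) = ind t22 c := by simp [ind, t22, ell_neg]
theorem ind_t3_neg (c : ι → ℤ) : ind t3 (-c) = ind t3 c := by simp [ind, t3, ell_neg]
theorem ind_t32_neg (c : ι → ℤ) : ind t32 (-c) = ind t32 c := by simp [ind, t32, ell_neg]

/-- the types are exclusive -/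
theorem excl (c : ι → ℤ) : ind t1 c + ind t22 c + ind t3 c + ind t32 c ≤ 1 := by
  unfold ind
  by_cases h1 : t1 c
  · have h2 : ¬ t22 c := fun h => by unfold t1 at h1; unfold t22 at h; omega
    have h3 : ¬ t3 c := fun h => by unfold t1 at h1; unfold t3 at h; omega
    have h4 : ¬ t32 c := fun h => by unfold t1 at h1; unfold t32 at h; omega
    simp [h1, h2, h3, h4]
  · by_cases h2 : t22 c
    · have h3 : ¬ t3 c := by
        rintro ⟨-, x, hx⟩
        have := h2.2 x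
        omega
      have h4 : ¬ t32 c := fun h => by unfold t22 at h2; unfold t32 at h; omega
      simp [h1, h2, h3, h4]
    · by_cases h3 : t3 c
      · have h4 : ¬ t32 c := fun h => by unfold t3 at h3; unfold t32 at h; omega
        simp [h1, h2, h3, h4]
      · by_cases h4 : t32 c <;> simp [h1, h2, h3, h4]

omit [Fintype ι] in
theorem ind_one {A : (ι → ℤ) → Prop} {c : ι → ℤ} (h : A c) : ind A c = 1 := if_pos h

omit [Fintype ι] in
theorem ind_cases (A : (ι → ℤ) → Prop) (c : ι → ℤ) : (A c ∧ ind A c = 1) ∨ ind A c = 0 := by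
  unfold ind
  by_cases h : A c
  · left; simp [h]
  · right; simp [h]

/-- words with one coincidence -/
theorem cntA (hW : T_W) (hW2 : T_W2) (hW3 : T_W3) (c : ι → ℤ) (hc : nrm c = 5) :
    6 * ind t1 c + 6 * ind t22 c + 6 * ind t3 c + 4 * ind t32 c ≤
      cw (Fin 5) (fun w : Fin 5 → ι × Bool => vs w = c ∧ w 0 = w 1) := by
  have hx := excl c
  have hc' : nrm c = Fintype.card (Fin 5) := by rw [hc, Fintype.card_fin]
  rcases ind_cases t1 c with ⟨h1, e1⟩ | e1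
  · have h2 := (((hW ι (Fin 5)).2 c hc').2.2.2.1) 0 1 (by decide)
      (by rw [Fintype.card_fin]; unfold t1 at h1; omega)
    rw [Fintype.card_fin, cw_eq] at h2
    have h3 : (5 - 2) ! = 6 := rfl
    omega
  · rcases ind_cases t22 c with ⟨h1, e2⟩ | e2
    · have h2 := ((hW2 ι (Fin 5) c hc').2.2.1) 0 1 (by decide)
        (by rw [Fintype.card_fin]; unfold t22 at h1; omega)
      rw [Fintype.card_fin, cw_eq] at h2
      have h3 : (5 - 2) ! = 6 := rfl
      omega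
    · rcases ind_cases t3 c with ⟨h1, e3⟩ | e3
      · have h2 := ((hW2 ι (Fin 5) c hc').2.2.1) 0 1 (by decide)
          (by rw [Fintype.card_fin]; unfold t3 at h1; omega)
        rw [Fintype.card_fin, cw_eq] at h2
        have h3 : (5 - 2) ! = 6 := rfl
        omega
      · rcases ind_cases t32 c with ⟨h1, e4⟩ | e4
        · have h2 := (hW3 ι (Fin 5) (by simp) c hc h1 0 1 2 3 4 (by decide)).1
          rw [cw_eq] at h2
          omega
        · omega

/-- words with two coincidences -/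
theorem cntB (hW2 : T_W2) (hW3 : T_W3) (c : ι → ℤ) (hc : nrm c = 5) :
    2 * ind t22 c + 2 * ind t32 c ≤
      cw (Fin 5) (fun w : Fin 5 → ι × Bool => vs w = c ∧ w 0 = w 1 ∧ w 2 = w 3) := by
  have hx := excl c
  have hc' : nrm c = Fintype.card (Fin 5) := by rw [hc, Fintype.card_fin]
  rcases ind_cases t22 c with ⟨h1, e2⟩ | e2
  · have h2 := ((hW2 ι (Fin 5) c hc').2.2.2.1) 0 1 2 3 (by decide)
      (by rw [Fintype.card_fin]; unfold t22 at h1; omega) h1.2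
    rw [Fintype.card_fin, cw_eq] at h2
    have h3 : (5 - 4) ! = 1 := rfl
    omega
  · rcases ind_cases t32 c with ⟨h1, e4⟩ | e4
    · have h2 := (hW3 ι (Fin 5) (by simp) c hc h1 0 1 2 3 4 (by decide)).2.1
      rw [cw_eq] at h2
      omega
    · omega

/-- words with a triple coincidence -/
theorem cntT (hW2 : T_W2) (hW3 : T_W3) (c : ι → ℤ) (hc : nrm c = 5) :
    2 * ind t3 c + ind t32 c ≤
      cw (Fin 5) (fun w : Fin 5 → ι × Bool => vs w = c ∧ w 0 = w 1 ∧ w 1 = w 2) := by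
  have hx := excl c
  have hc' : nrm c = Fintype.card (Fin 5) := by rw [hc, Fintype.card_fin]
  rcases ind_cases t3 c with ⟨h1, e2⟩ | e2
  · have h2 := ((hW2 ι (Fin 5) c hc').2.2.2.2) 0 1 2 (by decide)
      (by rw [Fintype.card_fin]; unfold t3 at h1; omega) h1.2
    rw [Fintype.card_fin, cw_eq] at h2
    have h3 : (5 - 3) ! = 2 := rfl
    omega
  · rcases ind_cases t32 c with ⟨h1, e4⟩ | e4
    · have h2 := (hW3 ι (Fin 5) (by simp) c hc h1 0 1 2 3 4 (by decide)).2.2.1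
      rw [cw_eq] at h2
      omega
    · omega

/-- words with a triple and a double coincidence -/
theorem cntE (hW3 : T_W3) (c : ι → ℤ) (hc : nrm c = 5) :
    ind t32 c ≤ cw (Fin 5) (fun w : Fin 5 → ι × Bool =>
      vs w = c ∧ w 0 = w 1 ∧ w 1 = w 2 ∧ w 3 = w 4) := by
  rcases ind_cases t32 c with ⟨h1, e4⟩ | e4
  · have h2 := (hW3 ι (Fin 5) (by simp) c hc h1 0 1 2 3 4 (by decide)).2.2.2
    rw [cw_eq] at h2
    omega
  · omega

theorem mul_le (a b a' b' : ℕ) (h : a ≤ a') (h' : b ≤ b') : a * b ≤ a' * b' :=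
  Nat.mul_le_mul h h'

theorem e5 (hV : T_V) (hL : T_L) (hSY : T_SY) (hW : T_W) (hW2 : T_W2) (hW3 : T_W3) : T_E5 := by
  intro ι _ G _ ev hP
  have hv : ∀ n (c : ι → ℤ), c ∈ Vn ι n ↔ nrm c = n := fun n c => hV ι n c
  have hA := cntA (ι := ι) hW hW2 hW3
  have hB := cntB (ι := ι) hW2 hW3
  have hT := cntT (ι := ι) hW2 hW3
  have hE := cntE (ι := ι) hW3
  have s1 := P5_swap ev t22 t1
  have s2 := P5_swap ev t3 t1
  have s3 := P5_swap ev t22 t3
  have s4 := P5_swap ev t32 t1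
  have hq : ∀ q ∈ {q ∈ Vn ι 5 ×ˢ Vn ι 5 | ev q.1 = ev q.2 ∧ nrm (q.1 - q.2) = 5 + 5},
      nrm q.1 = 5 ∧ nrm (-q.2) = 5 := by
    intro q hq
    simp only [mem_filter, mem_product, hv] at hq
    exact ⟨hq.1.1, by rw [nrm_neg]; exact hq.1.2⟩
  refine ⟨?_, ?_, ?_, ?_, ?_⟩
  · have h' : z10 ev = _ := patt hSY ev f1 f1_bij (fun z => z 0 = z 1 ∧ z 2 = z 3)
      (fun w => w 0 = w 1) (fun u => u 0 = u 1) (fun z => Iff.rfl) _
    have g : 36 * P5 ev t1 t1 + 36 * P5 ev t1 t22 + 36 * P5 ev t22 t1 + 36 * P5 ev t1 t3 +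
        36 * P5 ev t3 t1 + 36 * P5 ev t3 t22 + 36 * P5 ev t22 t3 + 24 * P5 ev t1 t32 +
        24 * P5 ev t32 t1 ≤ z10 ev := by
      rw [h']
      simp only [P5_eq hL hV ev hP, mul_sum, ← sum_add_distrib]
      refine sum_le_sum fun q hqm => ?_
      refine le_trans ?_ (Nat.mul_le_mul (hA q.1 (hq q hqm).1) (hA (-q.2) (hq q hqm).2))
      simp only [ind_t1_neg, ind_t22_neg, ind_t3_neg, ind_t32_neg]
      linarith [Nat.zero_le (ind t1 q.1 * ind t1 q.2), Nat.zero_le (ind t22 q.1 * ind t22 q.2),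
          Nat.zero_le (ind t3 q.1 * ind t3 q.2), Nat.zero_le (ind t32 q.1 * ind t32 q.2),
          Nat.zero_le (ind t32 q.1 * ind t22 q.2), Nat.zero_le (ind t32 q.1 * ind t3 q.2),
          Nat.zero_le (ind t22 q.1 * ind t32 q.2), Nat.zero_le (ind t3 q.1 * ind t32 q.2)]
    refine le_trans ?_ g
    omega
  · have h' : z10b ev = _ := patt hSY ev f2 f2_bij (fun z => z 0 = z 1 ∧ z 2 = z 3 ∧ z 4 = z 5)
      (fun w => w 0 = w 1) (fun u => u 0 = u 1 ∧ u 2 = u 3) (fun z => Iff.rfl) _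
    have g : 12 * P5 ev t1 t22 + 12 * P5 ev t3 t22 + 12 * P5 ev t1 t32 ≤ z10b ev := by
      rw [h']
      simp only [P5_eq hL hV ev hP, mul_sum, ← sum_add_distrib]
      refine sum_le_sum fun q hqm => ?_
      refine le_trans ?_ (Nat.mul_le_mul (hA q.1 (hq q hqm).1) (hB (-q.2) (hq q hqm).2))
      simp only [ind_t1_neg, ind_t22_neg, ind_t3_neg, ind_t32_neg]
      linarith [Nat.zero_le (ind t22 q.1 * ind t22 q.2),
          Nat.zero_le (ind t32 q.1 * ind t32 q.2), Nat.zero_le (ind t3 q.1 * ind t32 q.2),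
          Nat.zero_le (ind t32 q.1 * ind t22 q.2), Nat.zero_le (ind t22 q.1 * ind t32 q.2)]
    exact g
  · have h' : z10c ev = _ := patt hSY ev f3 f3_bij (fun z => z 0 = z 1 ∧ z 1 = z 2 ∧ z 3 = z 4)
      (fun w => w 0 = w 1) (fun u => u 0 = u 1 ∧ u 1 = u 2)
      (fun z => ⟨fun h => ⟨h.2.2, h.1, h.2.1⟩, fun h => ⟨h.2.1, h.2.2, h.1⟩⟩) _
    have g : 12 * P5 ev t1 t3 + 12 * P5 ev t22 t3 + 6 * P5 ev t1 t32 ≤ z10c ev := by
      rw [h']
      simp only [P5_eq hL hV ev hP, mul_sum, ← sum_add_distrib]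
      refine sum_le_sum fun q hqm => ?_
      refine le_trans ?_ (Nat.mul_le_mul (hA q.1 (hq q hqm).1) (hT (-q.2) (hq q hqm).2))
      simp only [ind_t1_neg, ind_t22_neg, ind_t3_neg, ind_t32_neg]
      linarith [Nat.zero_le (ind t3 q.1 * ind t3 q.2), Nat.zero_le (ind t32 q.1 * ind t3 q.2),
          Nat.zero_le (ind t32 q.1 * ind t32 q.2), Nat.zero_le (ind t3 q.1 * ind t32 q.2),
          Nat.zero_le (ind t22 q.1 * ind t32 q.2)]
    refine le_trans ?_ g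
    omega
  · have h' : ga ev = _ := patt hSY ev f4 f4_bij
      (fun z => z 0 = z 1 ∧ z 1 = z 2 ∧ z 3 = z 4 ∧ z 5 = z 6)
      (fun w => w 0 = w 1 ∧ w 1 = w 2) (fun u => u 0 = u 1 ∧ u 2 = u 3)
      (fun z => ⟨fun h => ⟨⟨h.1, h.2.1⟩, h.2.2⟩, fun h => ⟨h.1.1, h.1.2, h.2⟩⟩) _
    have g : 4 * P5 ev t3 t22 ≤ ga ev := by
      rw [h']
      simp only [P5_eq hL hV ev hP, mul_sum, ← sum_add_distrib]
      refine sum_le_sum fun q hqm => ?_
      refine le_trans ?_ (Nat.mul_le_mul (hT q.1 (hq q hqm).1) (hB (-q.2) (hq q hqm).2))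
      simp only [ind_t1_neg, ind_t22_neg, ind_t3_neg, ind_t32_neg]
      linarith [Nat.zero_le (ind t32 q.1 * ind t22 q.2),
          Nat.zero_le (ind t32 q.1 * ind t32 q.2), Nat.zero_le (ind t3 q.1 * ind t32 q.2)]
    exact g
  · have h' : ga ev = _ := patt hSY ev f5 f5_bij
      (fun z => z 0 = z 1 ∧ z 1 = z 2 ∧ z 3 = z 4 ∧ z 5 = z 6)
      (fun w => w 0 = w 1) (fun u => u 0 = u 1 ∧ u 1 = u 2 ∧ u 3 = u 4)
      (fun z => ⟨fun h => ⟨h.2.2.2, h.1, h.2.1, h.2.2.1⟩,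
        fun h => ⟨h.2.1, h.2.2.1, h.2.2.2, h.1⟩⟩) _
    have g : 6 * P5 ev t1 t32 ≤ ga ev := by
      rw [h']
      simp only [P5_eq hL hV ev hP, mul_sum, ← sum_add_distrib]
      refine sum_le_sum fun q hqm => ?_
      refine le_trans ?_ (Nat.mul_le_mul (hA q.1 (hq q hqm).1) (hE (-q.2) (hq q hqm).2))
      simp only [ind_t1_neg, ind_t22_neg, ind_t3_neg, ind_t32_neg]
      linarith [Nat.zero_le (ind t22 q.1 * ind t32 q.2),
          Nat.zero_le (ind t32 q.1 * ind t32 q.2), Nat.zero_le (ind t3 q.1 * ind t32 q.2)]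
    exact g

/-! ## Norm four -/

theorem ind_e1_neg (c : ι → ℤ) : ind e1 (-c) = ind e1 c := by simp [ind, e1, ell_neg]
theorem ind_e22_neg (c : ι → ℤ) : ind e22 (-c) = ind e22 c := by simp [ind, e22, ell_neg]

theorem excl4 (c : ι → ℤ) : ind e1 c + ind e22 c ≤ 1 := by
  unfold ind
  by_cases h1 : e1 c
  · have h2 : ¬ e22 c := fun h => by unfold e1 at h1; unfold e22 at h; omega
    simp [h1, h2]
  · by_cases h2 : e22 c <;> simp [h1, h2]

theorem cntA4 (hW : T_W) (hW2 : T_W2) (c : ι → ℤ) (hc : nrm c = 4) :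
    2 * ind e1 c + 2 * ind e22 c ≤
      cw (Fin 4) (fun w : Fin 4 → ι × Bool => vs w = c ∧ w 0 = w 1) := by
  have hx := excl4 c
  have hc' : nrm c = Fintype.card (Fin 4) := by rw [hc, Fintype.card_fin]
  rcases ind_cases e1 c with ⟨h1, e1'⟩ | e1'
  · have h2 := (((hW ι (Fin 4)).2 c hc').2.2.2.1) 0 1 (by decide)
      (by rw [Fintype.card_fin]; unfold e1 at h1; omega)
    rw [Fintype.card_fin, cw_eq] at h2
    have h3 : (4 - 2) ! = 2 := rfl
    omega
  · rcases ind_cases e22 c with ⟨h1, e2⟩ | e2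
    · have h2 := ((hW2 ι (Fin 4) c hc').2.2.1) 0 1 (by decide)
        (by rw [Fintype.card_fin]; unfold e22 at h1; omega)
      rw [Fintype.card_fin, cw_eq] at h2
      have h3 : (4 - 2) ! = 2 := rfl
      omega
    · omega

theorem cntB4 (hW2 : T_W2) (c : ι → ℤ) (hc : nrm c = 4) :
    2 * ind e22 c ≤
      cw (Fin 4) (fun w : Fin 4 → ι × Bool => vs w = c ∧ w 0 = w 1 ∧ w 2 = w 3) := by
  have hc' : nrm c = Fintype.card (Fin 4) := by rw [hc, Fintype.card_fin]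
  rcases ind_cases e22 c with ⟨h1, e2⟩ | e2
  · have h2 := ((hW2 ι (Fin 4) c hc').2.2.2.1) 0 1 2 3 (by decide)
      (by rw [Fintype.card_fin]; unfold e22 at h1; omega) h1.2
    rw [Fintype.card_fin, cw_eq] at h2
    have h3 : (4 - 4) ! = 1 := rfl
    omega
  · omega

theorem e4 (hV : T_V) (hL : T_L) (hSY : T_SY) (hW : T_W) (hW2 : T_W2) (hW3 : T_W3) : T_E4 := by
  intro ι _ G _ ev hP
  have hv : ∀ n (c : ι → ℤ), c ∈ Vn ι n ↔ nrm c = n := fun n c => hV ι n c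
  have hA := cntA (ι := ι) hW hW2 hW3
  have hB := cntB (ι := ι) hW2 hW3
  have hA' := cntA4 (ι := ι) hW hW2
  have hB' := cntB4 (ι := ι) hW2
  have hq : ∀ q ∈ {q ∈ Vn ι 4 ×ˢ Vn ι 5 | ev q.1 = ev q.2 ∧ nrm (q.1 - q.2) = 4 + 5},
      nrm q.1 = 4 ∧ nrm (-q.2) = 5 := by
    intro q hq
    simp only [mem_filter, mem_product, hv] at hq
    exact ⟨hq.1.1, by rw [nrm_neg]; exact hq.1.2⟩
  refine ⟨?_, ?_, ?_⟩
  · have h' : z9 ev = _ := patt hSY ev f6 f6_bij (fun z => z 0 = z 1 ∧ z 2 = z 3)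
      (fun w => w 0 = w 1) (fun u => u 0 = u 1) (fun z => Iff.rfl) _
    rw [h']
    simp only [P4_eq hL hV ev hP, mul_sum, ← sum_add_distrib]
    refine sum_le_sum fun q hqm => ?_
    refine le_trans ?_ (Nat.mul_le_mul (hA' q.1 (hq q hqm).1) (hA (-q.2) (hq q hqm).2))
    simp only [ind_t1_neg, ind_t22_neg, ind_t3_neg, ind_t32_neg]
    linarith [Nat.zero_le (ind e1 q.1 * ind t3 q.2), Nat.zero_le (ind e1 q.1 * ind t32 q.2),
      Nat.zero_le (ind e22 q.1 * ind t22 q.2), Nat.zero_le (ind e22 q.1 * ind t3 q.2),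
      Nat.zero_le (ind e22 q.1 * ind t32 q.2)]
  · have h' : al ev = _ := patt hSY ev f7 f7_bij (fun z => z 0 = z 1 ∧ z 2 = z 3 ∧ z 4 = z 5)
      (fun w => w 0 = w 1) (fun u => u 0 = u 1 ∧ u 2 = u 3) (fun z => Iff.rfl) _
    rw [h']
    simp only [P4_eq hL hV ev hP, mul_sum, ← sum_add_distrib]
    refine sum_le_sum fun q hqm => ?_
    refine le_trans ?_ (Nat.mul_le_mul (hA' q.1 (hq q hqm).1) (hB (-q.2) (hq q hqm).2))
    simp only [ind_t1_neg, ind_t22_neg, ind_t3_neg, ind_t32_neg]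
    linarith [Nat.zero_le (ind e1 q.1 * ind t32 q.2),
      Nat.zero_le (ind e22 q.1 * ind t22 q.2), Nat.zero_le (ind e22 q.1 * ind t32 q.2)]
  · have h' : al ev = _ := patt hSY ev f8 f8_bij (fun z => z 0 = z 1 ∧ z 2 = z 3 ∧ z 4 = z 5)
      (fun w => w 0 = w 1 ∧ w 2 = w 3) (fun u => u 0 = u 1)
      (fun z => ⟨fun h => ⟨⟨h.1, h.2.1⟩, h.2.2⟩, fun h => ⟨h.1.1, h.1.2, h.2⟩⟩) _
    rw [h']
    simp only [P4_eq hL hV ev hP, mul_sum, ← sum_add_distrib]
    refine sum_le_sum fun q hqm => ?_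
    refine le_trans ?_ (Nat.mul_le_mul (hB' q.1 (hq q hqm).1) (hA (-q.2) (hq q hqm).2))
    simp only [ind_t1_neg, ind_t22_neg, ind_t3_neg, ind_t32_neg]
    linarith [Nat.zero_le (ind e22 q.1 * ind t22 q.2), Nat.zero_le (ind e22 q.1 * ind t3 q.2),
      Nat.zero_le (ind e22 q.1 * ind t32 q.2)]

end

end Pool.Agent.H24.GC
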