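import Pool.Agent.H23.GC.Targets3

/-!
# GC module SY: permuting positions, decomposing words in two blocks
-/

set_option autoImplicit false

open Finset Pool.Agent.H23.GC
open scoped Classical Nat

namespace Pool.Agent.H24.GC

noncomputable section

variable {ι : Type} [Fintype ι]

theorem nrm_add_le (a b : ι → ℤ) : nrm (a + b) ≤ nrm a + nrm b := by
  unfold nrm
  rw [← sum_add_distrib]
  exact sum_le_sum fun i _ => Int.natAbs_add_le _ _

theorem nrm_neg (a : ι → ℤ) : nrm (-a) = nrm a := by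
  unfold nrm
  exact sum_congr rfl fun i _ => Int.natAbs_neg _

theorem nrm_sub_le (a b : ι → ℤ) : nrm (a - b) ≤ nrm a + nrm b := by
  rw [sub_eq_add_neg, ← nrm_neg b]
  exact nrm_add_le _ _

omit [Fintype ι] in
theorem vs_comp {κ κ' : Type} [Fintype κ] [Fintype κ'] (e : κ ≃ κ') (z : κ' → ι × Bool) :
    vs (z ∘ e) = vs z := by
  unfold vs
  exact Equiv.sum_comp e (fun k => dv (z k))

omit [Fintype ι] in
theorem vs_sum {κ κ' : Type} [Fintype κ] [Fintype κ'] (z : κ ⊕ κ' → ι × Bool) :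
    vs z = vs (z ∘ Sum.inl) + vs (z ∘ Sum.inr) := by
  unfold vs
  rw [Fintype.sum_sum_type]
  rfl

theorem mem_Zr {G : Type} [AddCommGroup G] {ev : (ι → ℤ) →+ G} {κ : Type} [Fintype κ]
    {z : κ → ι × Bool} :
    z ∈ Zr ev κ ↔ nrm (vs z) = Fintype.card κ ∧ ev (vs z) = 0 := by
  unfold Zr
  simp

theorem sy (hV : T_V) (hW : T_W) : T_SY := by
  intro ι _ G _ ev
  constructor
  · intro κ κ' _ _ e P
    have hc : Fintype.card κ' = Fintype.card κ := (Fintype.card_congr e).symm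
    refine card_nbij' (fun z => z ∘ e.symm) (fun z => z ∘ e) ?_ ?_ ?_ ?_
    · intro z hz
      simp only [coe_filter, Set.mem_ofPred_eq, mem_Zr] at hz ⊢
      rw [vs_comp, hc]
      exact hz
    · intro z hz
      simp only [coe_filter, Set.mem_ofPred_eq, mem_Zr] at hz ⊢
      rw [vs_comp, ← hc]
      refine ⟨hz.1, ?_⟩
      have : (z ∘ e) ∘ e.symm = z := by ext k <;> simp
      rw [this]
      exact hz.2
    · intro z _
      ext k <;> simp
    · intro z _
      ext k <;> simp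
  · intro κ κ' _ _ P Q
    have hv : ∀ n (c : ι → ℤ), c ∈ Vn ι n ↔ nrm c = n := fun n c => hV ι n c
    set S := {q ∈ Vn ι (Fintype.card κ) ×ˢ Vn ι (Fintype.card κ') |
      ev q.1 = ev q.2 ∧ nrm (q.1 - q.2) = Fintype.card κ + Fintype.card κ'} with hS
    have hm : ∀ z ∈ {z ∈ Zr ev (κ ⊕ κ') | P (z ∘ Sum.inl) ∧ Q (z ∘ Sum.inr)},
        (vs (z ∘ Sum.inl), -vs (z ∘ Sum.inr)) ∈ S := by
      intro z hz
      simp only [mem_filter, mem_Zr, Fintype.card_sum] at hz
      obtain ⟨⟨h1, h2⟩, -, -⟩ := hz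
      have h3 := (hW ι κ).1 (z ∘ Sum.inl)
      have h4 := (hW ι κ').1 (z ∘ Sum.inr)
      rw [vs_sum] at h1 h2
      have h5 := nrm_add_le (vs (z ∘ Sum.inl)) (vs (z ∘ Sum.inr))
      simp only [hS, mem_filter, mem_product, hv, sub_neg_eq_add, nrm_neg, map_neg]
      rw [map_add] at h2
      exact ⟨⟨by omega, by omega⟩, eq_neg_of_add_eq_zero_left h2, h1⟩
    rw [card_eq_sum_card_fiberwise hm]
    refine sum_congr rfl fun q hq => ?_
    simp only [hS, mem_filter, mem_product, hv] at hq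
    obtain ⟨⟨hq1, hq2⟩, hq3, hq4⟩ := hq
    rw [← card_product]
    refine card_nbij' (fun z => (z ∘ Sum.inl, z ∘ Sum.inr)) (fun p => Sum.elim p.1 p.2) ?_ ?_ ?_ ?_
    · intro z hz
      simp only [coe_filter, Set.mem_ofPred_eq, mem_filter, mem_Zr] at hz
      obtain ⟨⟨⟨-, -⟩, h3, h4⟩, h5⟩ := hz
      simp only [coe_product, coe_filter, mem_univ, true_and, Set.mem_prod, Set.mem_ofPred_eq]
      refine ⟨⟨congrArg Prod.fst h5, h3⟩, ?_, h4⟩
      have := congrArg Prod.snd h5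
      simp only at this
      rw [← this, neg_neg]
    · rintro ⟨w, u⟩ hp
      simp only [coe_product, coe_filter, mem_univ, true_and, Set.mem_prod,
        Set.mem_ofPred_eq] at hp
      obtain ⟨⟨h1, h2⟩, h3, h4⟩ := hp
      simp only [coe_filter, Set.mem_ofPred_eq, mem_filter, mem_Zr, vs_sum, Sum.elim_comp_inl,
        Sum.elim_comp_inr, Fintype.card_sum]
      rw [h1, h3, ← sub_eq_add_neg, hq4, map_sub, hq3, sub_self, neg_neg]
      exact ⟨⟨⟨rfl, rfl⟩, h2, h4⟩, rfl⟩
    · intro z _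
      simp
    · rintro ⟨w, u⟩ _
      simp

end

end Pool.Agent.H24.GC
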